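import Pool.Agent.Helper24.AL.St
import Pool.Agent.Helper56.SW.M_Sqrt
import Pool.Agent.Helper28.SP.M_MP

set_option autoImplicit false

namespace Pool.Agent.Helper15.AL

open Finset Matrix
open Pool.Agent.Helper24.AL
open Pool.Agent.Helper56.SW (τ Γ I bx E Rel N Nq stSqrt)
open Pool.Agent.Helper28.SP (SZ SG red cnt W Sym Pos sP wP lam opX StLAM StSURJ StSYM StNPW StWPN
  StFOLD StLEVEL)

/-- a positive family stays positive modulo `c` -/
private lemma pos_red {ι : Type} {s : Finset ι} {w : ι → SZ} (c : ℕ) (h : Pos s w) :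
    Pos s (fun i => red c (w i)) := by
  obtain ⟨κ, t, z, hz⟩ := h
  refine ⟨κ, t, fun x => red c (z x), fun f => ?_⟩
  have h1 := hz (fun g => f (red c g))
  rw [h1]
  refine sum_congr rfl fun x _ => sum_congr rfl fun y _ => ?_
  rw [map_mul, map_inv]

theorem hPOS (hPOSW : StPOSW) (hWPN1 : StWPN1) (hNPW : StNPW) (hSYM : StSYM)
    (hSURJ : StSURJ) : StPOS := by
  intro c a b r A B hc hr
  classical
  have : NeZero c := ⟨by omega⟩
  obtain ⟨sc, hsc⟩ := Pool.Agent.Helper28.SP.MP.scal hSURJ c hc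
  have h1 := hNPW c a b r A B sc hc hr hsc
  have hpos := pos_red c (hSYM a b A B).2.2
  have h2 : ∀ g : SZ, W (sP A B) (wP a b) c r g ≤ W (sP A B) (wP a b) c r 1 := by
    intro g
    unfold W
    rw [map_one]
    exact hPOSW (SG c) _ (sP A B) (fun i => red c (wP a b i)) r (red c g) hpos
  have h3 := hWPN1 c a b r A B hc hr
  have hG : ((Γ c).card : ℝ) ≤ 2 * τ c := stSqrt c hc
  have htau0 : 0 ≤ τ c := by unfold τ; positivity
  have hsum : ∑ x ∈ Γ c, (W (sP A B) (wP a b) c r (sc x) : ℝ) ≤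
      2 * τ c * (W (sP A B) (wP a b) c r 1 : ℝ) := by
    calc ∑ x ∈ Γ c, (W (sP A B) (wP a b) c r (sc x) : ℝ)
        ≤ ∑ x ∈ Γ c, (W (sP A B) (wP a b) c r 1 : ℝ) :=
          sum_le_sum fun x _ => by exact_mod_cast h2 (sc x)
      _ = (Γ c).card * (W (sP A B) (wP a b) c r 1 : ℝ) := by rw [sum_const, nsmul_eq_mul]
      _ ≤ 2 * τ c * (W (sP A B) (wP a b) c r 1 : ℝ) := by gcongr
  set Q : ℝ := ((A : ℝ) + 1) * ((B : ℝ) + 1) with hQ
  have hQ0 : 0 < Q := by rw [hQ]; positivity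
  set M : ℝ := (N1 c a b r (2 * A) (2 * B) : ℝ) with hM
  have hM0 : 0 ≤ M := by rw [hM]; positivity
  have hP : (2 * (A : ℝ) + 1) * (2 * B + 1) ≤ 4 * Q := by
    rw [hQ]
    have hA0 : (0 : ℝ) ≤ A := by positivity
    have hB0 : (0 : ℝ) ≤ B := by positivity
    nlinarith
  have key : (N c a b r A B : ℝ) * Q ^ r ≤ 2 * τ c * 4 ^ r * M * Q ^ r := by
    calc (N c a b r A B : ℝ) * Q ^ r ≤ _ := h1
      _ ≤ 2 * τ c * (W (sP A B) (wP a b) c r 1 : ℝ) := hsum
      _ ≤ 2 * τ c * (((2 * (A : ℝ) + 1) * (2 * B + 1)) ^ r * M) := by gcongr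
      _ ≤ 2 * τ c * ((4 * Q) ^ r * M) := by gcongr
      _ = 2 * τ c * 4 ^ r * M * Q ^ r := by rw [mul_pow]; ring
  exact le_of_mul_le_mul_right key (by positivity)

end Pool.Agent.Helper15.AL
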